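import Pool.Agent.N73.BTA
import Pool.Agent.N208.BT.Stm3

/-!
# Project BT (helper208), part P2 (helper227): the intertwining operator
-/

set_option autoImplicit false

noncomputable section

namespace Pool.Agent.N227.BTP2

open Matrix
open Pool.Agent.N208.BT
open Pool.Agent.N73.BT
open Pool.Agent.N73.BTA (br_N N_add N_real N_smul_left N_zero N_neg N_I pr pr_add pr_smul pr_eq
  pr_or pr_of_or pr_u H H_u H_v H_w)

variable {n n' : ℕ}

lemma H_eq (u v : V n) : H u v = N v u := rfl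

lemma H_skew (u v : V n) : IsSk (H u v) := N_skew v u

lemma H_apply (u v x : V n) : H u v *ᵥ x = hf x v • u - hf x u • v := by
  rw [H_eq, N_apply]

/-- the signature -/
lemma hf_nonpos {u v w : V n} (huu : hf u u = 0) (huv : hf u v = 1) (hwu : hf w u = 0) :
    (hf w w).re ≤ 0 := by
  have hu0 : u 0 ≠ 0 := by
    intro h0
    have h1 : ∑ i : Fin n, u i.succ * star (u i.succ) = 0 := by
      have h2 := huu
      unfold hf at h2
      rw [h0, zero_mul, zero_sub, neg_eq_zero] at h2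
      exact h2
    have h2 : ∀ i : Fin n, u i.succ = 0 := by
      have h3 : ∑ i : Fin n, ‖u i.succ‖ ^ 2 = 0 := by
        have h4 : ((∑ i : Fin n, ‖u i.succ‖ ^ 2 : ℝ) : ℂ) = 0 := by
          rw [← h1]
          push_cast
          refine Finset.sum_congr rfl fun i _ => ?_
          exact (Complex.mul_conj' _).symm
        exact_mod_cast h4
      intro i
      have h4 := (Finset.sum_eq_zero_iff_of_nonneg (fun i _ => by positivity)).1 h3 i
        (Finset.mem_univ i)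
      simpa using h4
    have h3 : u = 0 := by
      funext i
      refine Fin.cases ?_ ?_ i
      · exact h0
      · exact h2
    rw [h3, hf_zero_left] at huv
    exact zero_ne_one huv
  set c : ℂ := w 0 / u 0 with hc
  set z : V n := w - c • u with hz
  have hz0 : z 0 = 0 := by
    rw [hz, Pi.sub_apply, Pi.smul_apply, smul_eq_mul, hc, div_mul_cancel₀ _ hu0, sub_self]
  have hzz : hf z z = hf w w := by
    have huw : hf u w = 0 := by rw [hf_conj, hwu, star_zero]
    rw [hz, hf_sub_left, hf_sub_right, hf_sub_right, hf_smul_left, hf_smul_right, hf_smul_left,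
      hf_smul_right, huw, huu, hwu]
    ring
  rw [← hzz]
  have h1 : hf z z = ((-(∑ i : Fin n, ‖z i.succ‖ ^ 2) : ℝ) : ℂ) := by
    unfold hf
    rw [hz0, zero_mul, zero_sub]
    push_cast
    congr 1
    refine Finset.sum_congr rfl fun i _ => ?_
    exact Complex.mul_conj' _
  rw [h1, Complex.ofReal_re]
  have : 0 ≤ ∑ i : Fin n, ‖z i.succ‖ ^ 2 := Finset.sum_nonneg fun i _ => by positivity
  linarith

/-- operators of weight one -/
lemma K1 {u v : V n} {Y : M n} (hy : Hy u v) (hs : IsSk Y) (hb : br (H u v) Y = Y) :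
    Y = N u (Y *ᵥ v) ∧ Pool.Agent.N73.BT.Or u v (Y *ᵥ v) := by
  have act : ∀ x, hf (Y *ᵥ x) v • u - hf (Y *ᵥ x) u • v = Y *ᵥ x + Y *ᵥ (H u v *ᵥ x) := by
    intro x
    have h1 : br (H u v) Y *ᵥ x = Y *ᵥ x := by rw [hb]
    unfold br at h1
    rw [Matrix.sub_mulVec, ← Matrix.mulVec_mulVec, ← Matrix.mulVec_mulVec, H_apply u v (Y *ᵥ x)]
      at h1
    exact sub_eq_iff_eq_add.1 h1
  have h1 := act v
  rw [H_v hy, Matrix.mulVec_neg, add_neg_cancel] at h1
  have e1 : hf (Y *ᵥ v) v = 0 := by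
    have h2 : hf (hf (Y *ᵥ v) v • u - hf (Y *ᵥ v) u • v) v = 0 := by rw [h1, hf_zero_left]
    rw [hf_sub_left, hf_smul_left, hf_smul_left, hy.uv, hy.vv] at h2
    linear_combination h2
  have e2 : hf (Y *ᵥ v) u = 0 := by
    have h2 : hf (hf (Y *ᵥ v) v • u - hf (Y *ᵥ v) u • v) u = 0 := by rw [h1, hf_zero_left]
    rw [hf_sub_left, hf_smul_left, hf_smul_left, hy.uu, hy.vu] at h2
    linear_combination -h2
  have h3 := act u
  rw [H_u hy] at h3
  have e3 : Y *ᵥ u = 0 := by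
    have g1 : hf (Y *ᵥ u) v = 0 := by
      have h2 : hf (hf (Y *ᵥ u) v • u - hf (Y *ᵥ u) u • v) v = hf (Y *ᵥ u + Y *ᵥ u) v := by
        rw [h3]
      rw [hf_sub_left, hf_smul_left, hf_smul_left, hy.uv, hy.vv, hf_add_left] at h2
      linear_combination -h2
    have g2 : hf (Y *ᵥ u) u = 0 := by
      have h2 : hf (hf (Y *ᵥ u) v • u - hf (Y *ᵥ u) u • v) u = hf (Y *ᵥ u + Y *ᵥ u) u := by
        rw [h3]
      rw [hf_sub_left, hf_smul_left, hf_smul_left, hy.uu, hy.vu, hf_add_left] at h2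
      linear_combination (-1 / 3 : ℂ) * h2
    rw [g1, g2, zero_smul, zero_smul, sub_zero] at h3
    have h4 : (2 : ℂ) • (Y *ᵥ u) = 0 := by rw [two_smul, ← h3]
    exact (smul_eq_zero.1 h4).resolve_left two_ne_zero
  have e4 : ∀ x, Pool.Agent.N73.BT.Or u v x → Y *ᵥ x = (-(hf x (Y *ᵥ v))) • u := by
    intro x ho
    have h4 := act x
    rw [H_w ho, Matrix.mulVec_zero, add_zero] at h4
    have g2 : hf (Y *ᵥ x) u = 0 := by
      have h2 : hf (hf (Y *ᵥ x) v • u - hf (Y *ᵥ x) u • v) u = hf (Y *ᵥ x) u := by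
        rw [h4]
      rw [hf_sub_left, hf_smul_left, hf_smul_left, hy.uu, hy.vu] at h2
      linear_combination (-1 / 2 : ℂ) * h2
    rw [g2, zero_smul, sub_zero] at h4
    rw [← h4]
    have h5 := hs x v
    have h6 : hf (Y *ᵥ x) v = -(hf x (Y *ᵥ v)) := by linear_combination h5
    rw [h6]
  refine ⟨?_, e2, e1⟩
  apply mat_ext
  intro x
  rw [N_apply]
  have ho := pr_or hy x
  conv_lhs => rw [pr_eq u v x]
  rw [Matrix.mulVec_add, Matrix.mulVec_add, Matrix.mulVec_smul, Matrix.mulVec_smul, e3, smul_zero,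
    zero_add, e4 _ ho]
  have h7 : hf x (Y *ᵥ v) = hf (pr u v x) (Y *ᵥ v) := by
    have e5 : hf u (Y *ᵥ v) = 0 := by rw [hf_conj, e2, star_zero]
    have e6 : hf v (Y *ᵥ v) = 0 := by rw [hf_conj, e1, star_zero]
    conv_lhs => rw [pr_eq u v x]
    rw [hf_add_left, hf_add_left, hf_smul_left, hf_smul_left, e5, e6]
    ring
  rw [h7, neg_smul]
  abel

lemma N_inj {u v a b : V n} (hy : Hy u v) (ha : Pool.Agent.N73.BT.Or u v a)
    (hb : Pool.Agent.N73.BT.Or u v b) (h : N u a = N u b) : a = b := by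
  have h1 : N u a *ᵥ v = N u b *ᵥ v := by rw [h]
  rwa [N_v hy ha, N_v hy hb] at h1

lemma trace_R (a b : V n) : (R a b).trace = hf a b := by
  have h := LinearMap.pi_apply_eq_sum_univ (hfL b) a
  have h4 : hfL b a = hf a b := rfl
  rw [← h4, h, Matrix.trace]
  refine Finset.sum_congr rfl fun j _ => ?_
  rw [Matrix.diag_apply, smul_eq_mul, R, Matrix.of_apply]
  congr 1
  have e : (fun k => if j = k then (1 : ℂ) else 0) = (Pi.single j 1 : V n) := by
    funext k
    rw [Pi.single_apply]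
    by_cases hjk : j = k
    · rw [if_pos hjk, if_pos hjk.symm]
    · rw [if_neg hjk, if_neg (fun h => hjk h.symm)]
  rw [e]
  rfl

/-- the bracket of step2 -/
lemma L2 {u v w : V n} (hy : Hy u v) (ho : Pool.Agent.N73.BT.Or u v w)
    (hsY : IsSk (br (N u w) (N v (Complex.I • w)))) :
    br (br (N u w) (N v (Complex.I • w))) (N u w) = (3 * hf w w) • N u (Complex.I • w) := by
  have ho' : Pool.Agent.N73.BT.Or u v (Complex.I • w) := ho.smul _
  rw [br_N hsY]
  have e0 : br (N u w) (N v (Complex.I • w)) = N w (Complex.I • w) +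
      N v (-(Complex.I * hf w w) • u) := by
    rw [br_N (N_skew u w), N_v hy ho, N_w ho', hf_smul_left]
  have eu : br (N u w) (N v (Complex.I • w)) *ᵥ u = (-(Complex.I * hf w w)) • u := by
    rw [e0, Matrix.add_mulVec, N_apply, N_apply, hf_smul_right, hf_smul_right, ho.uw, hy.uv,
      hy.uu]
    simp
  have ew : br (N u w) (N v (Complex.I • w)) *ᵥ w = (2 * Complex.I * hf w w) • w := by
    rw [e0, Matrix.add_mulVec, N_apply, N_apply, hf_smul_right, hf_smul_right, ho.wu, ho.wv,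
      Complex.star_def, Complex.conj_I]
    module
  rw [eu, ew, N_smul_left, ← N_add]
  have e3 : star (-(Complex.I * hf w w)) • w + (2 * Complex.I * hf w w) • w =
      (3 * hf w w) • (Complex.I • w) := by
    rw [star_neg, star_mul', hf_self, Complex.star_def, Complex.conj_I]
    module
  have hr : star (3 * hf w w) = 3 * hf w w := by
    rw [star_mul', hf_self]
    simp
  rw [e3, N_real _ _ hr]

/-- the decomposition of a long root -/
lemma L9 {u v w : V n} (a b : ℂ) (hh : hf w w = -(a * star b + b * star a)) :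
    Complex.I • R (a • u + b • v + w) (a • u + b • v + w) = (a * star a) • (Complex.I • R u u)
      + (b * star b) • (Complex.I • R v v) + N u ((Complex.I * star a) • w)
      + N v ((Complex.I * star b) • w) + (Complex.I * (a * star b - b * star a) / 2) • H u v
      + (1 / 2 : ℝ) • (Complex.I • ((2 : ℂ) • R w w - hf w w • (R u v + R v u))) := by
  have hI : Complex.I * Complex.I = -1 := Complex.I_mul_I
  have sI : star Complex.I = -Complex.I := Complex.conj_I
  rw [hh]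
  unfold N H
  simp only [R_add_left, R_add_right, R_smul_left, R_smul_right, star_mul', star_star, sI]
  module

/-- the data -/
structure D (𝔟 : Submodule ℝ (M n × M n')) (u v : V n) (u' v' : V n') : Prop where
  P : PR 𝔟
  i2 : ∀ Y : M n', (0, Y) ∈ 𝔟 → Y = 0
  hy : Hy u v
  hy' : Hy u' v'
  me : (Complex.I • R u u, Complex.I • R u' u') ∈ 𝔟
  mf : (Complex.I • R v v, Complex.I • R v' v') ∈ 𝔟

variable {𝔟 : Submodule ℝ (M n × M n')} {u v : V n} {u' v' : V n'}

lemma D.brm (d : D 𝔟 u v u' v') {X X2 : M n} {Y Y2 : M n'} (h : (X, Y) ∈ 𝔟)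
    (h2 : (X2, Y2) ∈ 𝔟) : (br X X2, br Y Y2) ∈ 𝔟 := d.P.br _ h _ h2

lemma D.uniq (d : D 𝔟 u v u' v') {X : M n} {Y Y2 : M n'} (h : (X, Y) ∈ 𝔟)
    (h2 : (X, Y2) ∈ 𝔟) : Y = Y2 := by
  have h3 : ((X, Y) - (X, Y2) : M n × M n') ∈ 𝔟 := 𝔟.sub_mem h h2
  have e : ((X, Y) - (X, Y2) : M n × M n') = (0, Y - Y2) := by
    rw [Prod.mk_sub_mk, sub_self]
  rw [e] at h3
  exact sub_eq_zero.1 (d.i2 _ h3)

lemma rsm {X : M n} {Y : M n'} (h : (X, Y) ∈ 𝔟) {c : ℂ} (hc : star c = c) :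
    (c • X, c • Y) ∈ 𝔟 := by
  have h1 : ((c.re : ℝ) : ℂ) = c := Complex.conj_eq_iff_re.1 hc
  rw [← h1, Complex.coe_smul, Complex.coe_smul]
  exact 𝔟.smul_mem _ h

lemma add_m {X X2 : M n} {Y Y2 : M n'} (h : (X, Y) ∈ 𝔟) (h2 : (X2, Y2) ∈ 𝔟) :
    (X + X2, Y + Y2) ∈ 𝔟 := 𝔟.add_mem h h2

lemma brH {a b : V n} (hy : Hy a b) (hs : IsSk (Complex.I • R a a)) :
    br (Complex.I • R a a) (Complex.I • R b b) = -H a b := by
  rw [br_smul, br_R hs, Matrix.smul_mulVec, R_apply, hy.vu, one_smul, R_smul_left,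
    R_smul_right, Complex.star_def, Complex.conj_I]
  unfold H
  rw [smul_add, smul_smul, smul_smul, mul_neg, Complex.I_mul_I, neg_neg, one_smul, neg_one_smul]
  abel

lemma D.sk1 (d : D 𝔟 u v u' v') {X : M n} {Y : M n'} (h : (X, Y) ∈ 𝔟) : IsSk X := by
  have h2 := d.P.sk1 (X, Y) h
  exact h2

lemma D.sk2 (d : D 𝔟 u v u' v') {X : M n} {Y : M n'} (h : (X, Y) ∈ 𝔟) : IsSk Y := by
  have h2 := d.P.sk2 (X, Y) h
  exact h2

lemma D.Hm (d : D 𝔟 u v u' v') : (H u v, H u' v') ∈ 𝔟 := by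
  have h := d.brm d.me d.mf
  rw [brH d.hy (d.sk1 d.me), brH d.hy' (d.sk2 d.me)] at h
  have h2 : (-(1 : ℝ)) • ((-H u v, -H u' v') : M n × M n') ∈ 𝔟 := 𝔟.smul_mem _ h
  have e : (-(1 : ℝ)) • ((-H u v, -H u' v') : M n × M n') = (H u v, H u' v') := by
    rw [Prod.smul_mk, smul_neg, smul_neg, neg_smul, neg_smul, one_smul, one_smul, neg_neg, neg_neg]
  rwa [e] at h2

/-- corresponding vectors -/
structure Th (𝔟 : Submodule ℝ (M n × M n')) (u v : V n) (u' v' : V n') (w : V n) (w' : V n') :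
    Prop where
  o : Pool.Agent.N73.BT.Or u v w
  o' : Pool.Agent.N73.BT.Or u' v' w'
  m : (N u w, N u' w') ∈ 𝔟

lemma D.ex (hSU : S_SU) (d : D 𝔟 u v u' v') {X : M n} (hs : IsSk X) (ht : X.trace = 0) :
    ∃ Y, (X, Y) ∈ 𝔟 := by
  have h := hSU n X hs ht
  have h2 : Submodule.span ℝ {Y : M n | ∃ x : V n, hf x x = 0 ∧ Y = Complex.I • R x x} ≤
      𝔟.map (LinearMap.fst ℝ (M n) (M n')) := by
    rw [Submodule.span_le]
    rintro Y ⟨x, hx, rfl⟩
    obtain ⟨Z, hZ⟩ := d.P.all1 x hx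
    exact ⟨_, hZ, rfl⟩
  obtain ⟨⟨a, b⟩, hp, e⟩ := h2 h
  refine ⟨b, ?_⟩
  have e2 : a = X := e
  rw [← e2]
  exact hp

lemma D.th (hSU : S_SU) (d : D 𝔟 u v u' v') {w : V n} (ho : Pool.Agent.N73.BT.Or u v w) :
    ∃ w', Th 𝔟 u v u' v' w w' := by
  obtain ⟨Y, hY⟩ := d.ex hSU (X := N u w) (N_skew u w) (by
    unfold N
    rw [Matrix.trace_sub, trace_R, trace_R, ho.wu, ho.uw, sub_zero])
  have h1 := d.brm d.Hm hY
  have e1 : br (H u v) (N u w) = N u w := by
    rw [br_N (H_skew u v), H_u d.hy, H_w ho, N_zero, add_zero]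
  rw [e1] at h1
  have h2 := d.uniq h1 hY
  obtain ⟨h3, h4⟩ := K1 d.hy' (d.sk2 hY) h2
  refine ⟨Y *ᵥ v', ho, h4, ?_⟩
  rw [← h3]
  exact hY

lemma D.th_uniq (d : D 𝔟 u v u' v') {w : V n} {a b : V n'} (h : Th 𝔟 u v u' v' w a)
    (h2 : Th 𝔟 u v u' v' w b) : a = b :=
  N_inj d.hy' h.o' h2.o' (d.uniq h.m h2.m)

lemma or_add {u v a b : V n} (ha : Pool.Agent.N73.BT.Or u v a)
    (hb : Pool.Agent.N73.BT.Or u v b) : Pool.Agent.N73.BT.Or u v (a + b) :=
  ⟨by rw [hf_add_left, ha.wu, hb.wu, add_zero], by rw [hf_add_left, ha.wv, hb.wv, add_zero]⟩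

lemma Th.add {a b : V n} {a' b' : V n'} (h : Th 𝔟 u v u' v' a a')
    (h2 : Th 𝔟 u v u' v' b b') : Th 𝔟 u v u' v' (a + b) (a' + b') := by
  refine ⟨or_add h.o h2.o, or_add h.o' h2.o', ?_⟩
  rw [N_add, N_add]
  exact add_m h.m h2.m

lemma Th.real {a : V n} {a' : V n'} (h : Th 𝔟 u v u' v' a a') {c : ℂ} (hc : star c = c) :
    Th 𝔟 u v u' v' (c • a) (c • a') := by
  refine ⟨h.o.smul c, h.o'.smul c, ?_⟩
  rw [N_real _ _ hc, N_real _ _ hc]
  exact rsm h.m hc

lemma Th.step1 (d : D 𝔟 u v u' v') {a : V n} {a' : V n'} (h : Th 𝔟 u v u' v' a a') :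
    (N v (Complex.I • a), N v' (Complex.I • a')) ∈ 𝔟 := by
  have h1 := d.brm h.m d.mf
  rw [A1 d.hy h.o, A1 d.hy' h.o'] at h1
  rwa [N_I, N_I]

lemma Th.hf_eq (d : D 𝔟 u v u' v') {a : V n} {a' : V n'} (h : Th 𝔟 u v u' v' a a') :
    hf a a = hf a' a' := by
  have h1 := d.brm h.m d.mf
  rw [A1 d.hy h.o, A1 d.hy' h.o'] at h1
  have h2 := d.brm h.m h1
  rw [A2 d.hy h.o, A2 d.hy' h.o'] at h2
  have h3 := d.brm h.m h2
  rw [A3 d.hy h.o, A3 d.hy' h.o'] at h3
  have h4 := d.brm h.m h3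
  rw [A4 d.hy h.o, A4 d.hy' h.o'] at h4
  have hr : star (6 * hf a a ^ 2) = 6 * hf a a ^ 2 := by
    rw [star_mul', star_pow, hf_self]
    norm_num
  have h5 := rsm d.me hr
  rw [smul_comm _ Complex.I, smul_comm _ Complex.I] at h5
  have h6 := d.uniq h4 h5
  have h7 : (Complex.I • ((6 * hf a' a' ^ 2) • R u' u')) *ᵥ v' =
      (Complex.I • ((6 * hf a a ^ 2) • R u' u')) *ᵥ v' := by rw [h6]
  rw [Matrix.smul_mulVec, Matrix.smul_mulVec, Matrix.smul_mulVec, Matrix.smul_mulVec, R_apply,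
    d.hy'.vu, one_smul] at h7
  have h8 : hf ((6 * hf a' a' ^ 2) • u') v' = hf ((6 * hf a a ^ 2) • u') v' := by
    rw [smul_right_injective _ Complex.I_ne_zero h7]
  rw [hf_smul_left, hf_smul_left, d.hy'.uv, mul_one, mul_one] at h8
  have h9 : hf a' a' ^ 2 = hf a a ^ 2 := by linear_combination (1 / 6 : ℂ) * h8
  have r1 := hf_nonpos d.hy.uu d.hy.uv h.o.wu
  have r2 := hf_nonpos d.hy'.uu d.hy'.uv h.o'.wu
  have s1 : ((hf a a).re : ℂ) = hf a a := Complex.conj_eq_iff_re.1 (hf_self a)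
  have s2 : ((hf a' a').re : ℂ) = hf a' a' := Complex.conj_eq_iff_re.1 (hf_self a')
  rw [← s1, ← s2] at h9 ⊢
  have h10 : (hf a' a').re ^ 2 = (hf a a).re ^ 2 := by exact_mod_cast h9
  have h11 : (hf a a).re = (hf a' a').re := by nlinarith
  rw [h11]

lemma Th.I (d : D 𝔟 u v u' v') {a : V n} {a' : V n'} (h : Th 𝔟 u v u' v' a a') :
    Th 𝔟 u v u' v' (Complex.I • a) (Complex.I • a') := by
  refine ⟨h.o.smul _, h.o'.smul _, ?_⟩
  by_cases ha : a = 0
  · have e := h.hf_eq d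
    have ha' : a' = 0 := by
      by_contra hne
      have h2 := hf_neg d.hy'.uu d.hy'.uv h.o'.wu h.o'.wv hne
      rw [← e, ha, hf_zero_left] at h2
      exact h2 rfl
    rw [ha, ha', smul_zero, smul_zero, N_zero, N_zero]
    exact 𝔟.zero_mem
  have hne := hf_neg d.hy.uu d.hy.uv h.o.wu h.o.wv ha
  have h1 := h.step1 d
  have h2 := d.brm h.m h1
  have h3 := d.brm h2 h.m
  rw [L2 d.hy h.o (d.sk1 h2), L2 d.hy' h.o' (d.sk2 h2), ← h.hf_eq d] at h3
  have hr : star (3 * hf a a) = 3 * hf a a := by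
    rw [star_mul', hf_self]
    simp
  have h4 := rsm h3 (c := (3 * hf a a)⁻¹) (by rw [star_inv₀, hr])
  rwa [inv_smul_smul₀ (mul_ne_zero (by norm_num) hne),
    inv_smul_smul₀ (mul_ne_zero (by norm_num) hne)] at h4

lemma Th.smul (d : D 𝔟 u v u' v') {a : V n} {a' : V n'} (h : Th 𝔟 u v u' v' a a') (c : ℂ) :
    Th 𝔟 u v u' v' (c • a) (c • a') := by
  have e : ∀ {m : ℕ} (a : V m), c • a = (c.re : ℂ) • a + (c.im : ℂ) • (Complex.I • a) := by
    intro m a
    rw [smul_smul, ← add_smul, Complex.re_add_im]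
  rw [e, e]
  exact (h.real (Complex.conj_ofReal _)).add ((h.I d).real (Complex.conj_ofReal _))

lemma Th.Nv (d : D 𝔟 u v u' v') {a : V n} {a' : V n'} (h : Th 𝔟 u v u' v' a a') (c : ℂ) :
    (N v (c • a), N v' (c • a')) ∈ 𝔟 := by
  have h1 := (h.smul d (-Complex.I * c)).step1 d
  have e : Complex.I * (-Complex.I * c) = c := by
    linear_combination (-c) * Complex.I_mul_I
  rwa [smul_smul, smul_smul, e] at h1

lemma Th.hf2 (d : D 𝔟 u v u' v') {a b : V n} {a' b' : V n'} (h : Th 𝔟 u v u' v' a a')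
    (h2 : Th 𝔟 u v u' v' b b') : hf a b = hf a' b' := by
  have k1 := (h.add h2).hf_eq d
  have k2 := (h.add (h2.I d)).hf_eq d
  have k3 := h.hf_eq d
  have k4 := h2.hf_eq d
  simp only [hf_add_left, hf_add_right, hf_smul_left, hf_smul_right, Complex.star_def,
    Complex.conj_I] at k1 k2
  have hI : Complex.I * Complex.I = -1 := Complex.I_mul_I
  linear_combination (1 / 2 : ℂ) * k1 + (Complex.I / 2) * k2 - ((1 + Complex.I) / 2) * k3 -
    ((1 + Complex.I) / 2) * k4 + ((hf a b - hf a' b') / 2 - (hf b a - hf b' a') / 2 +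
      Complex.I * (hf b b - hf b' b') / 2) * hI

/-- the map on the orthogonal complement -/
def the (hSU : S_SU) (d : D 𝔟 u v u' v') (x : V n) : V n' := (d.th hSU (pr_or d.hy x)).choose

lemma the_spec (hSU : S_SU) (d : D 𝔟 u v u' v') (x : V n) :
    Th 𝔟 u v u' v' (pr u v x) (the hSU d x) := (d.th hSU (pr_or d.hy x)).choose_spec

/-- the intertwining map -/
def sig (hSU : S_SU) (d : D 𝔟 u v u' v') : V n →ₗ[ℂ] V n' where
  toFun x := hf x v • u' + hf x u • v' + the hSU d x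
  map_add' x y := by
    have e : the hSU d (x + y) = the hSU d x + the hSU d y := by
      apply d.th_uniq (the_spec hSU d (x + y))
      rw [pr_add]
      exact (the_spec hSU d x).add (the_spec hSU d y)
    rw [e, hf_add_left, hf_add_left, add_smul, add_smul]
    abel
  map_smul' c x := by
    have e : the hSU d (c • x) = c • the hSU d x := by
      apply d.th_uniq (the_spec hSU d (c • x))
      rw [pr_smul]
      exact (the_spec hSU d x).smul d c
    rw [e, hf_smul_left, hf_smul_left, RingHom.id_apply, smul_add, smul_add, mul_smul, mul_smul]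

lemma sig_apply (hSU : S_SU) (d : D 𝔟 u v u' v') (x : V n) :
    sig hSU d x = hf x v • u' + hf x u • v' + the hSU d x := rfl

lemma sig_iso (hSU : S_SU) (d : D 𝔟 u v u' v') (x y : V n) :
    hf (sig hSU d x) (sig hSU d y) = hf x y := by
  have hx := the_spec hSU d x
  have hy := the_spec hSU d y
  have h := hx.hf2 d hy
  rw [sig_apply, sig_apply]
  have e : hf x y = hf (hf x v • u + hf x u • v + pr u v x)
      (hf y v • u + hf y u • v + pr u v y) := by rw [← pr_eq u v x, ← pr_eq u v y]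
  rw [e]
  simp only [hf_add_left, hf_add_right, hf_smul_left, hf_smul_right, d.hy.uu, d.hy.vv, d.hy.uv,
    d.hy.vu, d.hy'.uu, d.hy'.vv, d.hy'.uv, d.hy'.vu, hx.o.wu, hx.o.wv, hx.o'.wu, hx.o'.wv,
    hy.o.uw, hy.o.vw, hy.o'.uw, hy.o'.vw, h]

lemma root_mem (hSU : S_SU) (d : D 𝔟 u v u' v') (x : V n) (hx : hf x x = 0) :
    (Complex.I • R x x, Complex.I • R (sig hSU d x) (sig hSU d x)) ∈ 𝔟 := by
  have ht := the_spec hSU d x
  have ex := pr_eq u v x
  have es := sig_apply hSU d x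
  set a := hf x v with ha
  set b := hf x u with hb
  set w := pr u v x with hw
  set w' := the hSU d x with hw'
  have hh : hf w w = -(a * star b + b * star a) := by
    have h3 : hf x x = a * star b + b * star a + hf w w := by
      rw [ex]
      simp only [hf_add_left, hf_add_right, hf_smul_left, hf_smul_right, d.hy.uu, d.hy.vv, d.hy.uv,
        d.hy.vu, ht.o.wu, ht.o.wv, ht.o.uw, ht.o.vw]
      ring
    rw [hx] at h3
    linear_combination -h3
  have hh' : hf w' w' = -(a * star b + b * star a) := by rw [← ht.hf_eq d, hh]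
  have k1 := L9 (u := u) (v := v) a b hh
  have k2 := L9 (u := u') (v := v') a b hh'
  rw [← ex] at k1
  rw [← es] at k2
  rw [k1, k2]
  have h2 : (Complex.I • ((2 : ℂ) • R w w - hf w w • (R u v + R v u)),
      Complex.I • ((2 : ℂ) • R w' w' - hf w' w' • (R u' v' + R v' u'))) ∈ 𝔟 := by
    have h3 := d.brm ht.m (d.brm ht.m d.mf)
    rwa [A1 d.hy ht.o, A1 d.hy' ht.o', A2 d.hy ht.o, A2 d.hy' ht.o'] at h3
  have g3 := rsm d.me (c := a * star a) (by rw [star_mul', star_star]; ring)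
  have g4 := rsm d.mf (c := b * star b) (by rw [star_mul', star_star]; ring)
  have g5 := (ht.smul d (Complex.I * star a)).m
  have g6 := ht.Nv d (Complex.I * star b)
  have g7 := rsm d.Hm (c := Complex.I * (a * star b - b * star a) / 2) (by
    rw [Complex.star_def, map_div₀, map_mul, map_sub, map_mul, map_mul, Complex.conj_I,
      ← Complex.star_def, star_star, star_star]
    simp
    ring)
  have g8 : ((1 / 2 : ℝ) • (Complex.I • ((2 : ℂ) • R w w - hf w w • (R u v + R v u))),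
      (1 / 2 : ℝ) • (Complex.I • ((2 : ℂ) • R w' w' - hf w' w' • (R u' v' + R v' u')))) ∈ 𝔟 :=
    𝔟.smul_mem _ h2
  exact add_m (add_m (add_m (add_m (add_m g3 g4) g5) g6) g7) g8

lemma mat_ext2 {m k : ℕ} {A B : Matrix (Fin m) (Fin k) ℂ} (h : ∀ x, A *ᵥ x = B *ᵥ x) : A = B := by
  apply Matrix.toLin'.injective
  ext1 x
  apply LinearMap.ext
  intro y
  simp only [LinearMap.comp_apply, Matrix.toLin'_apply]
  exact h _

theorem main (hSU : S_SU) : S_P2 := by
  intro n n' 𝔟 hP _ i2 u v u' v' huu hvv huv huu' hvv' huv' me mf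
  have d : D 𝔟 u v u' v' := ⟨hP, i2, ⟨huu, hvv, huv⟩, ⟨huu', hvv', huv'⟩, me, mf⟩
  set S : Matrix (Fin (n' + 1)) (Fin (n + 1)) ℂ := LinearMap.toMatrix' (sig hSU d) with hS
  have hSx : ∀ x, S *ᵥ x = sig hSU d x := fun x => LinearMap.toMatrix'_mulVec _ _
  refine ⟨S, ?_, ?_⟩
  · intro h0
    have h1 := sig_iso hSU d u v
    rw [← hSx, h0, Matrix.zero_mulVec, hf_zero_left, huv] at h1
    exact zero_ne_one h1
  · let 𝔠 : Submodule ℝ (M n) :=
      { carrier := {X | ∃ Y, (X, Y) ∈ 𝔟 ∧ Y * S = S * X}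
        zero_mem' := ⟨0, 𝔟.zero_mem, by rw [Matrix.zero_mul, Matrix.mul_zero]⟩
        add_mem' := by
          rintro X X2 ⟨Y, h1, h2⟩ ⟨Y2, h3, h4⟩
          exact ⟨Y + Y2, add_m h1 h3, by rw [Matrix.add_mul, Matrix.mul_add, h2, h4]⟩
        smul_mem' := by
          rintro c X ⟨Y, h1, h2⟩
          exact ⟨c • Y, 𝔟.smul_mem c h1, by rw [Matrix.smul_mul, Matrix.mul_smul, h2]⟩ }
    have hc : Submodule.span ℝ {Y : M n | ∃ x : V n, hf x x = 0 ∧ Y = Complex.I • R x x} ≤ 𝔠 := by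
      rw [Submodule.span_le]
      rintro Y ⟨x, hx, rfl⟩
      refine ⟨_, root_mem hSU d x hx, ?_⟩
      apply mat_ext2
      intro y
      rw [← Matrix.mulVec_mulVec, ← Matrix.mulVec_mulVec, hSx, Matrix.smul_mulVec,
        Matrix.smul_mulVec, R_apply, R_apply, sig_iso, hSx, map_smul, map_smul]
    rintro ⟨X, Y⟩ hp
    have hX : X ∈ 𝔠 := hc (hSU n X (d.sk1 hp) (hP.tr1 (X, Y) hp))
    obtain ⟨Y2, h1, h2⟩ := hX
    have h3 := d.uniq hp h1
    show Y * S = S * X
    rw [h3, h2]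

end Pool.Agent.N227.BTP2
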