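import Pool.Agent.N699.AO.Stm

set_option autoImplicit false

/-! Leaf PARS of project AO (helper699, MP_1e1427_nt): Parseval for the differences.
Proved by helper227. -/

namespace Pool.Agent.N227.AO
open Finset Pool.Agent.N699.AO

lemma ee_add (x y : ℝ) : ee (x + y) = ee x * ee y := by
  unfold ee
  rw [← Complex.exp_add]
  congr 1
  push_cast
  ring

lemma ee_zero : ee 0 = 1 := by simp [ee]

lemma norm_ee (x : ℝ) : ‖ee x‖ = 1 := by
  unfold ee
  have h : (2 * (Real.pi : ℂ) * (x : ℂ) * Complex.I) = ((2 * Real.pi * x : ℝ) : ℂ) * Complex.I := by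
    push_cast; ring
  rw [h]
  exact Complex.norm_exp_ofReal_mul_I _

lemma conj_ee (x : ℝ) : (starRingEnd ℂ) (ee x) = ee (-x) := by
  unfold ee
  rw [← Complex.exp_conj]
  congr 1
  have h2 : (starRingEnd ℂ) 2 = 2 := map_ofNat (starRingEnd ℂ) 2
  simp [Complex.conj_ofReal, h2]

lemma ee_int (m : ℤ) : ∫ α in (0 : ℝ)..1, ee ((m : ℝ) * α) = if m = 0 then 1 else 0 := by
  by_cases hm : m = 0
  · subst hm
    simp [ee]
  · rw [if_neg hm]
    have hc : (2 * (Real.pi : ℂ) * (m : ℂ) * Complex.I) ≠ 0 := by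
      have h1 : (Real.pi : ℂ) ≠ 0 := by exact_mod_cast Real.pi_ne_zero
      have h2 : (m : ℂ) ≠ 0 := by exact_mod_cast hm
      have h3 := Complex.I_ne_zero
      simp [h1, h2, h3]
    have h := integral_exp_mul_complex (a := (0 : ℝ)) (b := 1) hc
    have e : (fun α : ℝ => ee ((m : ℝ) * α)) =
        fun α : ℝ => Complex.exp (2 * (Real.pi : ℂ) * (m : ℂ) * Complex.I * α) := by
      funext α
      unfold ee
      congr 1
      push_cast
      ring
    rw [e, h]
    have h1 : Complex.exp (2 * (Real.pi : ℂ) * (m : ℂ) * Complex.I * ((1 : ℝ) : ℂ)) = 1 := by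
      rw [Complex.exp_eq_one_iff]
      exact ⟨m, by push_cast; ring⟩
    rw [h1]
    simp

lemma cont_ee (m : ℤ) : Continuous (fun α : ℝ => ee ((m : ℝ) * α)) := by
  unfold ee
  fun_prop

lemma pars (J : Finset ℤ) (C : ℤ → ℝ) :
    ∫ α in (0 : ℝ)..1, ‖∑ ν ∈ J, (C ν : ℂ) * ee ((ν : ℝ) * α)‖ ^ 2 = ∑ ν ∈ J, (C ν) ^ 2 := by
  apply Complex.ofReal_injective
  rw [← intervalIntegral.integral_ofReal]
  have e : ∀ α : ℝ, ((‖∑ ν ∈ J, (C ν : ℂ) * ee ((ν : ℝ) * α)‖ ^ 2 : ℝ) : ℂ) =
      ∑ μ ∈ J, ∑ ν ∈ J, ((C μ : ℂ) * (C ν : ℂ)) * ee (((μ - ν : ℤ) : ℝ) * α) := by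
    intro α
    push_cast
    rw [← Complex.mul_conj', map_sum, Finset.sum_mul_sum]
    refine Finset.sum_congr rfl fun μ _ => Finset.sum_congr rfl fun ν _ => ?_
    rw [map_mul, conj_ee, Complex.conj_ofReal]
    have : ((μ : ℝ) - (ν : ℝ)) * α = (μ : ℝ) * α + -((ν : ℝ) * α) := by ring
    rw [this, ee_add]
    ring
  simp_rw [e]
  rw [intervalIntegral.integral_finsetSum]
  · rw [Complex.ofReal_sum]
    refine Finset.sum_congr rfl fun μ hμ => ?_
    rw [intervalIntegral.integral_finsetSum]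
    · simp_rw [intervalIntegral.integral_const_mul, ee_int]
      rw [Finset.sum_eq_single μ]
      · simp [sq]
      · intro ν _ hν
        rw [if_neg (by omega)]
        simp
      · intro h; exact absurd hμ h
    · intro ν _
      exact ((continuous_const.mul (cont_ee (μ - ν))).intervalIntegrable _ _)
  · intro μ _
    refine Continuous.intervalIntegrable ?_ _ _
    refine continuous_finsetSum _ fun ν _ => ?_
    exact continuous_const.mul (cont_ee (μ - ν))

/-- the product of the sums is the sum over the box -/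
lemma prod_box (k M : ℕ) (α : ℝ) :
    EF k M α * ES M α * ET M α = ∑ p ∈ Pool.Agent.N699.AO.box k M, ee (((val k p : ℤ) : ℝ) * α) := by
  unfold EF ES ET EW Pool.Agent.N699.AO.box
  rw [Finset.sum_product, mul_assoc, Finset.sum_mul]
  refine Finset.sum_congr rfl fun a _ => ?_
  rw [Finset.sum_product, Finset.sum_mul, Finset.mul_sum]
  refine Finset.sum_congr rfl fun s _ => ?_
  rw [Finset.mul_sum, Finset.mul_sum]
  refine Finset.sum_congr rfl fun t _ => ?_
  rw [← ee_add, ← ee_add]
  congr 1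
  unfold Pool.Agent.N699.AO.val gz
  push_cast
  ring

theorem t_PARS : Pool.Agent.N699.AO.PARS := by
  intro k M h I
  set B := Pool.Agent.N699.AO.box k M with hB
  set J : Finset ℤ := (B.image fun p => (val k p : ℤ)) ∪ (B.image fun p => (val k p : ℤ) - h) ∪ I with hJ
  set C : ℤ → ℝ := fun ν => (rr k M (ν + h) : ℝ) - rr k M ν with hC
  have e : ∀ α : ℝ, ‖EF k M α * ES M α * ET M α‖ ^ 2 * ‖1 - ee ((h : ℝ) * α)‖ ^ 2 =
      ‖∑ ν ∈ J, (C ν : ℂ) * ee ((ν : ℝ) * α)‖ ^ 2 := by
    intro α
    have e1 : ‖1 - ee ((h : ℝ) * α)‖ = ‖ee (-((h : ℝ) * α)) - 1‖ := by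
      have : ee (-((h : ℝ) * α)) - 1 = ee (-((h : ℝ) * α)) * (1 - ee ((h : ℝ) * α)) := by
        rw [mul_sub, mul_one, ← ee_add]
        simp [ee_zero]
      rw [this, norm_mul, norm_ee, one_mul]
    rw [e1, ← mul_pow, ← norm_mul, prod_box]
    congr 2
    have e2 : ∑ p ∈ B, ee (((val k p : ℤ) : ℝ) * α) =
        ∑ ν ∈ J, (rr k M ν : ℂ) * ee ((ν : ℝ) * α) := by
      rw [← Finset.sum_fiberwise_of_maps_to (g := fun p => (val k p : ℤ)) (t := J)]
      · refine Finset.sum_congr rfl fun ν _ => ?_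
        have : ∀ p ∈ B.filter (fun p => (val k p : ℤ) = ν), ee (((val k p : ℤ) : ℝ) * α) = ee ((ν : ℝ) * α) := by
          intro p hp
          rw [(Finset.mem_filter.1 hp).2]
        rw [Finset.sum_congr rfl this, Finset.sum_const, nsmul_eq_mul]
        rfl
      · intro p hp
        simp only [hJ, Finset.mem_union, Finset.mem_image]
        exact Or.inl (Or.inl ⟨p, hp, rfl⟩)
    have e3 : (∑ p ∈ B, ee (((val k p : ℤ) : ℝ) * α)) * ee (-((h : ℝ) * α)) =
        ∑ ν ∈ J, (rr k M (ν + h) : ℂ) * ee ((ν : ℝ) * α) := by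
      rw [Finset.sum_mul, ← Finset.sum_fiberwise_of_maps_to (g := fun p => (val k p : ℤ) - h) (t := J)]
      · refine Finset.sum_congr rfl fun ν _ => ?_
        have : ∀ p ∈ B.filter (fun p => (val k p : ℤ) - h = ν),
            ee (((val k p : ℤ) : ℝ) * α) * ee (-((h : ℝ) * α)) = ee ((ν : ℝ) * α) := by
          intro p hp
          rw [← ee_add]
          congr 1
          have h1 := (Finset.mem_filter.1 hp).2
          rw [← h1]
          push_cast
          ring
        rw [Finset.sum_congr rfl this, Finset.sum_const, nsmul_eq_mul]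
        congr 2
        unfold rr
        congr 1
        apply Finset.filter_congr
        intro p _
        constructor
        · intro h1; omega
        · intro h1; omega
      · intro p hp
        simp only [hJ, Finset.mem_union, Finset.mem_image]
        exact Or.inl (Or.inr ⟨p, hp, rfl⟩)
    rw [mul_sub, e3, mul_one, e2, ← Finset.sum_sub_distrib]
    refine Finset.sum_congr rfl fun ν _ => ?_
    simp only [hC]
    push_cast
    ring
  simp_rw [e]
  rw [pars]
  calc ∑ ν ∈ I, ((rr k M ν : ℝ) - rr k M (ν + h)) ^ 2 = ∑ ν ∈ I, (C ν) ^ 2 := by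
        refine Finset.sum_congr rfl fun ν _ => ?_
        simp only [hC]
        ring
    _ ≤ ∑ ν ∈ J, (C ν) ^ 2 := by
        apply Finset.sum_le_sum_of_subset_of_nonneg
        · intro x hx
          simp only [hJ, Finset.mem_union]
          exact Or.inr hx
        · intro x _ _
          positivity

end Pool.Agent.N227.AO
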