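import Mathlib

set_option autoImplicit false

open scoped RealInnerProductSpace

namespace Pool.Agent.N227.Maehara

/-- The quadratic form inequality behind `R² Y² ≥ Q`. -/
lemma form_nonneg (A B C k a b d : ℝ) (hA : 0 < A) (hB : 0 < B) (hC : 0 < C)
    (hk : 16 * k = 2 * (A * B + B * C + C * A) - A ^ 2 - B ^ 2 - C ^ 2) (hkpos : 0 < k) :
    16 * k * (A * b * d + B * a * d + C * a * b) ≤ A * B * C * (a + b + d) ^ 2 := by
  have hABC : 0 < A * B * C := by positivity
  have key : 4 * (A * B * C) * (A * B * C * (a + b + d) ^ 2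
      - 16 * k * (A * b * d + B * a * d + C * a * b)) =
      (2 * (A * B * C) * a + C * ((A + B - C) ^ 2 - 2 * A * B) * b
        + B * ((A + C - B) ^ 2 - 2 * A * C) * d) ^ 2
      + 16 * k * (C * (A + B - C) * b - B * (A + C - B) * d) ^ 2 := by
    have hk' : k = (2 * (A * B + B * C + C * A) - A ^ 2 - B ^ 2 - C ^ 2) / 16 := by linarith
    rw [hk']
    ring
  have h2 : 0 ≤ 4 * (A * B * C) * (A * B * C * (a + b + d) ^ 2
      - 16 * k * (A * b * d + B * a * d + C * a * b)) := by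
    rw [key]; positivity
  have h3 : 0 ≤ A * B * C * (a + b + d) ^ 2
      - 16 * k * (A * b * d + B * a * d + C * a * b) :=
    nonneg_of_mul_nonneg_right h2 (by positivity)
  linarith

/-- The mixed sign case. -/
lemma mixed (A B C k p a b d : ℝ) (hA : 0 < A) (hB : 0 < B) (hC : 0 < C)
    (hk : 16 * k = 2 * (A * B + B * C + C * A) - A ^ 2 - B ^ 2 - C ^ 2) (hkpos : 0 < k)
    (hp : 0 < p) (hs : a + b + d = 1) (hb : b < 0) (hd : d < 0)
    (hb2 : 4 * p * B ≤ b ^ 2) (hd2 : 4 * p * C ≤ d ^ 2) :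
    0 < A * B * C - 4 * k * (A * b * d + B * a * d + C * a * b) - 48 * k ^ 2 * p := by
  set r := Real.sqrt (B * C) with hr
  have hr2 : r ^ 2 = B * C := Real.sq_sqrt (by positivity)
  have hrpos : 0 < r := Real.sqrt_pos.2 (by positivity)
  obtain ⟨x, hx⟩ : ∃ x, x = -b := ⟨_, rfl⟩
  obtain ⟨y, hy⟩ : ∃ y, y = -d := ⟨_, rfl⟩
  have hb' : b = -x := by linarith
  have hd' : d = -y := by linarith
  subst hb'
  subst hd'
  have hx0 : 0 < x := by linarith
  have hy0 : 0 < y := by linarith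
  have hx2 : 4 * p * B ≤ x ^ 2 := by nlinarith
  have hy2 : 4 * p * C ≤ y ^ 2 := by nlinarith
  have ha : a = 1 + x + y := by linarith
  set c := B + C - A with hc
  have hkc : 16 * k = (2 * r - c) * (2 * r + c) := by
    have : (2 * r - c) * (2 * r + c) = 4 * r ^ 2 - c ^ 2 := by ring
    rw [this, hr2, hk, hc]; ring
  have hpos2 : 0 < (2 * r - c) * (2 * r + c) := by rw [← hkc]; linarith
  have hcp : 0 < 2 * r + c := by
    by_contra hneg
    push Not at hneg
    have h1 : 0 < 2 * r - c := by linarith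
    nlinarith
  have hcm : 0 < 2 * r - c := by
    by_contra hneg
    push Not at hneg
    nlinarith
  -- x y ≥ 4 p r
  have hxy : 4 * p * r ≤ x * y := by
    have h1 : (4 * p * r) ^ 2 ≤ (x * y) ^ 2 := by
      have : (4 * p * r) ^ 2 = (4 * p * B) * (4 * p * C) := by
        rw [mul_pow, hr2]; ring
      rw [this, mul_pow]
      exact mul_le_mul hx2 hy2 (by positivity) (by positivity)
    exact (pow_le_pow_iff_left₀ (by positivity) (by positivity) (by norm_num)).1 h1
  have hAM : 2 * r * (x * y) ≤ B * y ^ 2 + C * x ^ 2 := by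
    have h1 : (2 * r * (x * y)) ^ 2 ≤ (B * y ^ 2 + C * x ^ 2) ^ 2 := by
      have : (2 * r * (x * y)) ^ 2 = 4 * (B * C) * (x ^ 2 * y ^ 2) := by
        rw [mul_pow, mul_pow, hr2]; ring
      rw [this]
      nlinarith [sq_nonneg (B * y ^ 2 - C * x ^ 2)]
    exact (pow_le_pow_iff_left₀ (by positivity) (by positivity) (by norm_num)).1 h1
  -- -Q ≥ B y² + C x² + c x y
  have hQ : B * y ^ 2 + C * x ^ 2 + c * (x * y) ≤
      -(A * (-x) * (-y) + B * a * (-y) + C * a * (-x)) := by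
    rw [ha, hc]
    nlinarith [mul_pos hB hy0, mul_pos hC hx0]
  have h12 : 12 * k * p ≤ B * y ^ 2 + C * x ^ 2 + c * (x * y) := by
    have h1 : (2 * r + c) * (4 * p * r) ≤ (2 * r + c) * (x * y) :=
      mul_le_mul_of_nonneg_left hxy hcp.le
    have h2 : 12 * k * p = (3 / 4) * ((2 * r - c) * (2 * r + c)) * p := by
      rw [← hkc]; ring
    have h3 : (3 / 4) * ((2 * r - c) * (2 * r + c)) * p ≤ (2 * r + c) * (4 * p * r) := by
      have : (2 * r + c) * (4 * p * r) - (3 / 4) * ((2 * r - c) * (2 * r + c)) * p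
          = (2 * r + c) * p * (4 * r - (3 / 4) * (2 * r - c)) := by ring
      have h4 : 0 < 4 * r - (3 / 4) * (2 * r - c) := by linarith
      have h5 : 0 < (2 * r + c) * p * (4 * r - (3 / 4) * (2 * r - c)) := by positivity
      linarith
    linarith
  have hABC : 0 < A * B * C := by positivity
  have h4 : 4 * k * (12 * k * p) ≤
      4 * k * (-(A * (-x) * (-y) + B * a * (-y) + C * a * (-x))) :=
    mul_le_mul_of_nonneg_left (h12.trans hQ) (by positivity)
  nlinarith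

/-- The central inequality. -/
lemma ineq (A B C k p a b d : ℝ) (hA : 0 < A) (hB : 0 < B) (hC : 0 < C)
    (hk : 16 * k = 2 * (A * B + B * C + C * A) - A ^ 2 - B ^ 2 - C ^ 2) (hkpos : 0 < k)
    (hs : a + b + d = 1)
    (ha2 : 4 * p * A ≤ a ^ 2) (hb2 : 4 * p * B ≤ b ^ 2) (hd2 : 4 * p * C ≤ d ^ 2)
    (hsign : 0 < p → 0 < a * b * d) :
    0 < A * B * C - 4 * k * (A * b * d + B * a * d + C * a * b) - 48 * k ^ 2 * p := by
  have hABC : 0 < A * B * C := by positivity
  have hform := form_nonneg A B C k a b d hA hB hC hk hkpos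
  rw [hs] at hform
  rcases le_or_gt p 0 with hp | hp
  · have h1 : 0 ≤ 48 * k ^ 2 * (-p) := by
      have : 0 ≤ -p := by linarith
      positivity
    nlinarith
  · have hpr := hsign hp
    -- signs
    rcases lt_trichotomy a 0 with ha | ha | ha
    · rcases lt_trichotomy b 0 with hb | hb | hb
      · -- a < 0, b < 0, d > 0
        have h := mixed C A B k p d a b hC hA hB (by rw [hk]; ring) hkpos hp (by linarith) ha hb
          ha2 hb2
        nlinarith
      · rw [hb] at hpr; simp at hpr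
      · have hd : d < 0 := by
          by_contra hd
          push Not at hd
          have : a * b * d ≤ 0 := by
            have h1 : a * b < 0 := mul_neg_of_neg_of_pos ha hb
            exact mul_nonpos_of_nonpos_of_nonneg h1.le hd
          linarith
        have h := mixed B A C k p b a d hB hA hC (by rw [hk]; ring) hkpos hp (by linarith) ha hd
          ha2 hd2
        nlinarith
    · rw [ha] at hpr; simp at hpr
    · rcases lt_trichotomy b 0 with hb | hb | hb
      · have hd : d < 0 := by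
          by_contra hd
          push Not at hd
          have : a * b * d ≤ 0 := by
            have h1 : a * b < 0 := mul_neg_of_pos_of_neg ha hb
            exact mul_nonpos_of_nonpos_of_nonneg h1.le hd
          linarith
        exact mixed A B C k p a b d hA hB hC hk hkpos hp hs hb hd hb2 hd2
      · rw [hb] at hpr; simp at hpr
      · -- all positive
        have hd : 0 < d := by
          by_contra hd
          push Not at hd
          have : a * b * d ≤ 0 := mul_nonpos_of_nonneg_of_nonpos (mul_pos ha hb).le hd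
          linarith
        have h1 : 4 * p * (A + B + C) ≤ 1 := by
          have : (a + b + d) ^ 2 = 1 := by rw [hs]; norm_num
          nlinarith [mul_pos ha hb, mul_pos ha hd, mul_pos hb hd]
        have h2 : 4 * k ≤ A * B := by nlinarith [sq_nonneg (A + B - C)]
        have h3 : 4 * k ≤ B * C := by nlinarith [sq_nonneg (B + C - A)]
        have h4 : 16 * k ^ 2 ≤ A * B * C * B := by
          have : (4 * k) * (4 * k) ≤ (A * B) * (B * C) :=
            mul_le_mul h2 h3 (by positivity) (by positivity)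
          nlinarith
        have h5 : 48 * k ^ 2 * p ≤ 3 * (A * B * C * B) * p := by nlinarith
        have h6 : 3 * (A * B * C * B) * p < 3 * (A * B * C) * (A + B + C) * p := by
          have : 0 < 3 * (A * B * C) * (A + C) * p := by positivity
          nlinarith
        have h7 : 3 * (A * B * C) * (A + B + C) * p ≤ 3 / 4 * (A * B * C) := by
          nlinarith
        nlinarith


/-- Cramer's rule for the squared distance matrix with zero diagonal. -/
lemma lemN (a b c d e f k β n ξ1 ξ2 ξ3 ξ4 : ℝ)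
    (hk : 16 * k = 2 * ((a * f) * (b * e) + (b * e) * (c * d) + (c * d) * (a * f))
      - (a * f) ^ 2 - (b * e) ^ 2 - (c * d) ^ 2)
    (R1 : a * ξ2 + b * ξ3 + c * ξ4 = 0) (R2 : a * ξ1 + d * ξ3 + e * ξ4 = 0)
    (R3 : b * ξ1 + d * ξ2 + f * ξ4 = 0) (R4 : β * (c * ξ1 + e * ξ2 + f * ξ3) = n)
    (hξ : 2 * ξ4 = (n - 4) * β) :
    n * (a * b * d + 4 * k * β ^ 2) = 16 * k * β ^ 2 := by
  have h1 : -(16 * k) * ξ4 - 2 * (a * b * d) * (c * ξ1 + e * ξ2 + f * ξ3) = 0 := by
    rw [hk]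
    linear_combination (-(d * (a * f + b * e - c * d))) * R1
      + (-(b * (a * f - b * e + c * d))) * R2 + (-(a * (c * d + b * e - a * f))) * R3
  have h2 : β * (-(16 * k) * ξ4 - 2 * (a * b * d) * (c * ξ1 + e * ξ2 + f * ξ3)) = 0 := by
    rw [h1]; ring
  linear_combination (-1 / 2) * h2 - (a * b * d) * R4 + (-4 * k * β) * hξ

/-- The algebraic contradiction. -/
lemma algebra (a b c d e f k β1 β2 β3 β4 n1 n2 n3 n4 η1 η2 η3 η4 ε : ℝ)
    (ha : 0 < a) (hb : 0 < b) (hc : 0 < c) (hd : 0 < d) (he : 0 < e) (hf : 0 < f)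
    (hk : 16 * k = 2 * ((a * f) * (b * e) + (b * e) * (c * d) + (c * d) * (a * f))
      - (a * f) ^ 2 - (b * e) ^ 2 - (c * d) ^ 2)
    (h1 : β1 ≠ 0) (h2 : β2 ≠ 0) (h3 : β3 ≠ 0) (h4 : β4 ≠ 0)
    (hs : β1 + β2 + β3 + β4 = 1)
    (L1 : a * β2 + b * β3 + c * β4 = 2) (L2 : a * β1 + d * β3 + e * β4 = 2)
    (L3 : b * β1 + d * β2 + f * β4 = 2) (L4 : c * β1 + e * β2 + f * β3 = 2)
    (hn1 : 0 < n1) (hn2 : 0 < n2) (hn3 : 0 < n3) (hn4 : 0 < n4) (hn4' : n4 ≤ 4)
    (N1 : n1 * (d * e * f + 4 * k * β1 ^ 2) = 16 * k * β1 ^ 2)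
    (N2 : n2 * (b * c * f + 4 * k * β2 ^ 2) = 16 * k * β2 ^ 2)
    (N3 : n3 * (a * c * e + 4 * k * β3 ^ 2) = 16 * k * β3 ^ 2)
    (N4 : n4 * (a * b * d + 4 * k * β4 ^ 2) = 16 * k * β4 ^ 2)
    (E1 : η1 * n1 = -ε * β1) (E2 : η2 * n2 = -ε * β2) (E3 : η3 * n3 = -ε * β3)
    (E4 : η4 * n4 = -ε * β4) (hη : η1 + η2 + η3 + η4 = 1)
    (hε : ε = -(a * η1 * η2 + b * η1 * η3 + c * η1 * η4 + d * η2 * η3 + e * η2 * η4
      + f * η3 * η4)) : False := by
  -- positivity of `k`
  have hkpos : 0 < k := by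
    have hT : 0 < n4 * (a * b * d) := by positivity
    have h5 : n4 * (a * b * d) = k * (4 * β4 ^ 2 * (4 - n4)) := by linarith
    by_contra hneg
    push Not at hneg
    have h6 : 0 ≤ 4 * β4 ^ 2 * (4 - n4) := by
      have : 0 ≤ 4 - n4 := by linarith
      positivity
    have h7 : k * (4 * β4 ^ 2 * (4 - n4)) ≤ 0 := mul_nonpos_of_nonpos_of_nonneg hneg h6
    linarith
  obtain ⟨μ1, hμ1⟩ : ∃ μ, μ = β1 / n1 := ⟨_, rfl⟩
  obtain ⟨μ2, hμ2⟩ : ∃ μ, μ = β2 / n2 := ⟨_, rfl⟩
  obtain ⟨μ3, hμ3⟩ : ∃ μ, μ = β3 / n3 := ⟨_, rfl⟩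
  obtain ⟨μ4, hμ4⟩ : ∃ μ, μ = β4 / n4 := ⟨_, rfl⟩
  have g1 : d * e * f + 4 * k * β1 ^ 2 = 16 * k * β1 * μ1 := by
    rw [hμ1]; field_simp; linarith
  have g2 : b * c * f + 4 * k * β2 ^ 2 = 16 * k * β2 * μ2 := by
    rw [hμ2]; field_simp; linarith
  have g3 : a * c * e + 4 * k * β3 ^ 2 = 16 * k * β3 * μ3 := by
    rw [hμ3]; field_simp; linarith
  have g4 : a * b * d + 4 * k * β4 ^ 2 = 16 * k * β4 * μ4 := by
    rw [hμ4]; field_simp; linarith
  have e1 : η1 = -ε * μ1 := by rw [hμ1]; field_simp; linarith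
  have e2 : η2 = -ε * μ2 := by rw [hμ2]; field_simp; linarith
  have e3 : η3 = -ε * μ3 := by rw [hμ3]; field_simp; linarith
  have e4 : η4 = -ε * μ4 := by rw [hμ4]; field_simp; linarith
  have hεμ : ε * (μ1 + μ2 + μ3 + μ4) = -1 := by
    rw [e1, e2, e3, e4] at hη; linarith
  have hε0 : ε ≠ 0 := by
    rintro rfl; simp at hεμ
  have hM : a * μ1 * μ2 + b * μ1 * μ3 + c * μ1 * μ4 + d * μ2 * μ3 + e * μ2 * μ4 + f * μ3 * μ4
      = μ1 + μ2 + μ3 + μ4 := by
    have h5 : ε = -(ε * ε * (a * μ1 * μ2 + b * μ1 * μ3 + c * μ1 * μ4 + d * μ2 * μ3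
        + e * μ2 * μ4 + f * μ3 * μ4)) := by
      rw [e1, e2, e3, e4] at hε
      linear_combination hε
    have h6 : ε * (ε * (a * μ1 * μ2 + b * μ1 * μ3 + c * μ1 * μ4 + d * μ2 * μ3
        + e * μ2 * μ4 + f * μ3 * μ4)) = ε * (ε * (μ1 + μ2 + μ3 + μ4)) := by
      rw [hεμ]; linarith
    exact mul_left_cancel₀ hε0 (mul_left_cancel₀ hε0 h6)
  -- the relation
  have hval : (a * f) * (b * e) * (c * d)
      - 8 * k * ((d * e * f) * β2 * β3 * β4 + (b * c * f) * β1 * β3 * β4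
        + (a * c * e) * β1 * β2 * β4 + (a * b * d) * β1 * β2 * β3)
      - 48 * k ^ 2 * (β1 * β2 * β3 * β4) = 0 := by
    obtain ⟨G1, hG1⟩ : ∃ G, G = d * e * f + 4 * k * β1 ^ 2 := ⟨_, rfl⟩
    obtain ⟨G2, hG2⟩ : ∃ G, G = b * c * f + 4 * k * β2 ^ 2 := ⟨_, rfl⟩
    obtain ⟨G3, hG3⟩ : ∃ G, G = a * c * e + 4 * k * β3 ^ 2 := ⟨_, rfl⟩
    obtain ⟨G4, hG4⟩ : ∃ G, G = a * b * d + 4 * k * β4 ^ 2 := ⟨_, rfl⟩
    have K : a * G1 * G2 * β3 * β4 + b * G1 * G3 * β2 * β4 + c * G1 * G4 * β2 * β3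
        + d * G2 * G3 * β1 * β4 + e * G2 * G4 * β1 * β3 + f * G3 * G4 * β1 * β2
        = 16 * k * (G1 * β2 * β3 * β4 + G2 * β1 * β3 * β4 + G3 * β1 * β2 * β4
          + G4 * β1 * β2 * β3) := by
      rw [hG1, hG2, hG3, hG4, g1, g2, g3, g4]
      linear_combination (256 * k ^ 2 * (β1 * β2 * β3 * β4)) * hM
    have hff : a * β1 * β2 + b * β1 * β3 + c * β1 * β4 + d * β2 * β3 + e * β2 * β4
        + f * β3 * β4 = 1 := by
      linear_combination (1 / 2) * (β1 * L1 + β2 * L2 + β3 * L3 + β4 * L4) + hs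
    rw [hG1, hG2, hG3, hG4] at K
    linear_combination K - ((a * f) * (b * e) * (c * d)) * hff
      - (16 * k ^ 2 * (β1 * β2 * β3 * β4)) * hff
      - 4 * k * ((d * e * f) * β2 * β3 * β4) * L1
      - 4 * k * ((b * c * f) * β1 * β3 * β4) * L2
      - 4 * k * ((a * c * e) * β1 * β2 * β4) * L3
      - 4 * k * ((a * b * d) * β1 * β2 * β3) * L4
      + 64 * k ^ 2 * (β1 * β2 * β3 * β4) * hs
  have hQ : (a * f) * (β1 * β3 * b + β2 * β4 * e) * (β1 * β4 * c + β2 * β3 * d)
      + (b * e) * (β1 * β2 * a + β3 * β4 * f) * (β1 * β4 * c + β2 * β3 * d)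
      + (c * d) * (β1 * β2 * a + β3 * β4 * f) * (β1 * β3 * b + β2 * β4 * e)
      = 2 * ((d * e * f) * β2 * β3 * β4 + (b * c * f) * β1 * β3 * β4
        + (a * c * e) * β1 * β2 * β4 + (a * b * d) * β1 * β2 * β3) := by
    linear_combination ((d * e * f) * β2 * β3 * β4) * L1 + ((b * c * f) * β1 * β3 * β4) * L2
      + ((a * c * e) * β1 * β2 * β4) * L3 + ((a * b * d) * β1 * β2 * β3) * L4
  have hsum : (β1 * β2 * a + β3 * β4 * f) + (β1 * β3 * b + β2 * β4 * e)
      + (β1 * β4 * c + β2 * β3 * d) = 1 := by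
    linear_combination (1 / 2) * (β1 * L1 + β2 * L2 + β3 * L3 + β4 * L4) + hs
  have hin := ineq (a * f) (b * e) (c * d) k (β1 * β2 * β3 * β4)
    (β1 * β2 * a + β3 * β4 * f) (β1 * β3 * b + β2 * β4 * e) (β1 * β4 * c + β2 * β3 * d)
    (by positivity) (by positivity) (by positivity) hk hkpos hsum
    (by nlinarith [sq_nonneg (β1 * β2 * a - β3 * β4 * f)])
    (by nlinarith [sq_nonneg (β1 * β3 * b - β2 * β4 * e)])
    (by nlinarith [sq_nonneg (β1 * β4 * c - β2 * β3 * d)])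
    (by
      intro hp
      have hA : 0 < (β1 * β2) * (β1 * β2 * a + β3 * β4 * f) := by
        have : (β1 * β2) * (β1 * β2 * a + β3 * β4 * f)
            = (β1 * β2) ^ 2 * a + (β1 * β2 * β3 * β4) * f := by ring
        rw [this]; positivity
      have hB : 0 < (β1 * β3) * (β1 * β3 * b + β2 * β4 * e) := by
        have : (β1 * β3) * (β1 * β3 * b + β2 * β4 * e)
            = (β1 * β3) ^ 2 * b + (β1 * β2 * β3 * β4) * e := by ring
        rw [this]; positivity
      have hC : 0 < (β1 * β4) * (β1 * β4 * c + β2 * β3 * d) := by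
        have : (β1 * β4) * (β1 * β4 * c + β2 * β3 * d)
            = (β1 * β4) ^ 2 * c + (β1 * β2 * β3 * β4) * d := by ring
        rw [this]; positivity
      have hprod := mul_pos (mul_pos hA hB) hC
      have h5 : (β1 * β2) * (β1 * β2 * a + β3 * β4 * f)
          * ((β1 * β3) * (β1 * β3 * b + β2 * β4 * e))
          * ((β1 * β4) * (β1 * β4 * c + β2 * β3 * d))
          = (β1 ^ 2 * (β1 * β2 * β3 * β4)) * ((β1 * β2 * a + β3 * β4 * f)
            * (β1 * β3 * b + β2 * β4 * e) * (β1 * β4 * c + β2 * β3 * d)) := by ring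
      rw [h5] at hprod
      have hP : 0 < β1 ^ 2 * (β1 * β2 * β3 * β4) := by positivity
      exact (mul_pos_iff_of_pos_left hP).1 hprod)
  rw [hQ] at hin
  have h9 : 4 * k * (2 * ((d * e * f) * β2 * β3 * β4 + (b * c * f) * β1 * β3 * β4
        + (a * c * e) * β1 * β2 * β4 + (a * b * d) * β1 * β2 * β3))
      = 8 * k * ((d * e * f) * β2 * β3 * β4 + (b * c * f) * β1 * β3 * β4
        + (a * c * e) * β1 * β2 * β4 + (a * b * d) * β1 * β2 * β3) := by ring
  rw [h9, hval] at hin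
  exact lt_irrefl _ hin

end Pool.Agent.N227.Maehara
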