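import Pool.Agent.N227.Maehara

set_option autoImplicit false

open scoped RealInnerProductSpace

namespace Pool.Agent.N227.Maehara

abbrev E3 := EuclideanSpace ℝ (Fin 3)

/-- Four unit vectors `u j`, the mirror points `v i` and a fifth centre `w`: impossible. -/
theorem core (u v : Fin 4 → E3) (w : E3) (hu : ∀ i, ‖u i‖ = 1)
    (hv : ∀ i j, i ≠ j → ‖v i - u j‖ = 1) (hv' : ∀ i, ‖v i - u i‖ ≠ 1)
    (hw : ∀ i, ‖v i - w‖ = 1) (hw' : ‖w‖ ≠ 1) : False := by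
  classical
  obtain ⟨n, hn⟩ : ∃ n : Fin 4 → ℝ, ∀ i, n i = ‖v i‖ ^ 2 := ⟨_, fun _ => rfl⟩
  have hin : ∀ i j, i ≠ j → ⟪v i, u j⟫ = n i / 2 := by
    intro i j hij
    have h1 := norm_sub_sq_real (v i) (u j)
    rw [hv i j hij, hu j, ← hn i] at h1
    linarith
  obtain ⟨κ, hκ⟩ : ∃ κ : Fin 4 → ℝ, ∀ i, κ i = ⟪v i, u i⟫ - n i / 2 := ⟨_, fun _ => rfl⟩
  have hκ0 : ∀ i, κ i ≠ 0 := by
    intro i h0
    apply hv' i
    have h1 := norm_sub_sq_real (v i) (u i)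
    rw [hu i, ← hn i] at h1
    have h2 : ‖v i - u i‖ ^ 2 = 1 := by
      have := hκ i
      rw [h0] at this
      rw [h1]; linarith
    have h3 : (0 : ℝ) ≤ ‖v i - u i‖ := norm_nonneg _
    nlinarith
  -- inner products with combinations
  have hcomb : ∀ (c : Fin 4 → ℝ) (x : E3) (t : ℝ), ∑ j, c j • u j = x → ∑ j, c j = t →
      ∀ i, ⟪v i, x⟫ = n i / 2 * t + c i * κ i := by
    intro c x t hx ht i
    rw [← hx, inner_sum, ← ht, Finset.mul_sum]
    have h1 : ∀ j, ⟪v i, c j • u j⟫ = n i / 2 * c j + (if j = i then c i * κ i else 0) := by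
      intro j
      rw [real_inner_smul_right]
      split_ifs with h
      · subst h; rw [hκ]; ring
      · rw [hin i j (Ne.symm h)]; ring
    rw [Finset.sum_congr rfl fun j _ => h1 j, Finset.sum_add_distrib]
    simp
  have hli : LinearIndependent ℝ (fun j : Fin 4 => ((u j, (1 : ℝ)) : E3 × ℝ)) := by
    rw [Fintype.linearIndependent_iff]
    intro g hg i
    have h1 : ∑ j, g j • u j = 0 := by
      have := congrArg Prod.fst hg
      simpa [Prod.fst_sum] using this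
    have h2 : ∑ j, g j = 0 := by
      have := congrArg Prod.snd hg
      simpa [Prod.snd_sum] using this
    have h3 := hcomb g 0 0 h1 h2 i
    simp only [inner_zero_right, mul_zero, zero_add] at h3
    exact (mul_eq_zero.1 h3.symm).resolve_right (hκ0 i)
  have hspan : ∀ (x : E3) (t : ℝ), ∃ c : Fin 4 → ℝ, ∑ j, c j • u j = x ∧ ∑ j, c j = t := by
    intro x t
    have htop : Submodule.span ℝ (Set.range (fun j : Fin 4 => ((u j, (1 : ℝ)) : E3 × ℝ))) = ⊤ := by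
      apply hli.span_eq_top_of_card_eq_finrank'
      simp
    have hmem : ((x, t) : E3 × ℝ) ∈
        Submodule.span ℝ (Set.range (fun j : Fin 4 => ((u j, (1 : ℝ)) : E3 × ℝ))) := by
      rw [htop]; trivial
    obtain ⟨c, hc⟩ := (Submodule.mem_span_range_iff_exists_fun ℝ).1 hmem
    refine ⟨c, ?_, ?_⟩
    · have := congrArg Prod.fst hc
      simpa [Prod.fst_sum] using this
    · have := congrArg Prod.snd hc
      simpa [Prod.snd_sum] using this
  -- squared distances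
  obtain ⟨Λ, hΛ⟩ : ∃ Λ : Fin 4 → Fin 4 → ℝ, ∀ i j, Λ i j = ‖u i - u j‖ ^ 2 :=
    ⟨_, fun _ _ => rfl⟩
  have hΛs : ∀ i j, Λ i j = Λ j i := by
    intro i j
    rw [hΛ, hΛ, norm_sub_rev]
  have hΛ0 : ∀ i, Λ i i = 0 := by intro i; rw [hΛ]; simp
  have hΛpos : ∀ i j, i ≠ j → 0 < Λ i j := by
    intro i j hij
    rw [hΛ]
    have : u i - u j ≠ 0 := by
      intro h
      have h1 : u i = u j := sub_eq_zero.1 h
      exact hv' i (by rw [h1]; exact hv i j hij)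
    positivity
  have hgram : ∀ i j, ⟪u i, u j⟫ = 1 - Λ i j / 2 := by
    intro i j
    have h1 := norm_sub_sq_real (u i) (u j)
    rw [hu i, hu j, ← hΛ i j] at h1
    linarith
  have hcombu : ∀ (c : Fin 4 → ℝ) (x : E3) (t : ℝ), ∑ j, c j • u j = x → ∑ j, c j = t →
      ∀ i, ⟪u i, x⟫ = t - (∑ j, Λ i j * c j) / 2 := by
    intro c x t hx ht i
    rw [← hx, inner_sum, ← ht, Finset.sum_div, ← Finset.sum_sub_distrib]
    refine Finset.sum_congr rfl fun j _ => ?_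
    rw [real_inner_smul_right, hgram]
    ring
  -- positivity of n
  have hnpos : ∀ i, 0 < n i := by
    intro i
    rw [hn]
    have : v i ≠ 0 := by
      intro h
      apply hw'
      have := hw i
      rw [h, zero_sub, norm_neg] at this
      exact this
    positivity
  have hn4 : ∀ i, n i ≤ 4 := by
    intro i
    obtain ⟨j, hj⟩ : ∃ j : Fin 4, i ≠ j := by
      fin_cases i
      · exact ⟨1, by decide⟩
      all_goals exact ⟨0, by decide⟩
    have h1 : ⟪v i, u j⟫ ≤ ‖v i‖ * ‖u j‖ := real_inner_le_norm _ _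
    rw [hin i j hj, hu j, mul_one] at h1
    have h2 := hn i
    have h3 : 0 ≤ ‖v i‖ := norm_nonneg _
    nlinarith
  -- barycentric coordinates of the origin
  obtain ⟨β, hβ0, hβ1⟩ := hspan 0 1
  have hβκ : ∀ i, β i * κ i = -(n i / 2) := by
    intro i
    have := hcomb β 0 1 hβ0 hβ1 i
    simp only [inner_zero_right, mul_one] at this
    linarith
  have hβne : ∀ i, β i ≠ 0 := by
    intro i h
    have := hβκ i
    rw [h, zero_mul] at this
    linarith [hnpos i]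
  have hL : ∀ i, ∑ j, Λ i j * β j = 2 := by
    intro i
    have := hcombu β 0 1 hβ0 hβ1 i
    simp only [inner_zero_right] at this
    linarith
  -- coordinates of `v i`
  have hξ : ∀ i, ∃ ξ : Fin 4 → ℝ, (∀ k, k ≠ i → ∑ j, Λ k j * ξ j = 0) ∧
      β i * (∑ j, Λ i j * ξ j) = n i ∧ 2 * ξ i = (n i - 4) * β i := by
    intro i
    obtain ⟨ξ, h1, h2⟩ := hspan (v i) (n i / 2)
    refine ⟨ξ, ?_, ?_, ?_⟩
    · intro k hk
      have h3 := hcombu ξ (v i) (n i / 2) h1 h2 k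
      rw [real_inner_comm, hin i k (Ne.symm hk)] at h3
      linarith
    · have h3 := hcombu ξ (v i) (n i / 2) h1 h2 i
      rw [real_inner_comm] at h3
      have h4 := hκ i
      have h5 : ∑ j, Λ i j * ξ j = -2 * κ i := by linarith
      rw [h5]
      have h6 := hβκ i
      linarith
    · have h3 := hcomb ξ (v i) (n i / 2) h1 h2 i
      rw [real_inner_self_eq_norm_sq, ← hn i] at h3
      have h4 := hβκ i
      have h5 : n i * (2 * ξ i) = n i * ((n i - 4) * β i) := by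
        have h6 : β i * n i = β i * (n i / 2 * (n i / 2)) + ξ i * (β i * κ i) := by
          linear_combination β i * h3
        rw [h4] at h6
        linarith
      exact mul_left_cancel₀ (hnpos i).ne' h5
  -- coordinates of `w`
  obtain ⟨η, hη0, hη1⟩ := hspan w 1
  obtain ⟨ε, hε⟩ : ∃ ε : ℝ, ε = ‖w‖ ^ 2 - 1 := ⟨_, rfl⟩
  have hEi : ∀ i, η i * n i = -ε * β i := by
    intro i
    have h1 := hcomb η w 1 hη0 hη1 i
    have h2 := norm_sub_sq_real (v i) w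
    rw [hw i, ← hn i] at h2
    have h3 : ε = 2 * (η i * κ i) := by rw [hε]; linarith
    have h4 := hβκ i
    rw [h3]
    linear_combination (2 * η i) * h4
  have hEw : ε = -((∑ i, η i * ∑ j, Λ i j * η j) / 2) := by
    have h1 : ⟪w, w⟫ = ∑ i, η i * (1 - (∑ j, Λ i j * η j) / 2) := by
      conv_lhs => rw [← hη0]
      rw [sum_inner]
      refine Finset.sum_congr rfl fun i _ => ?_
      rw [real_inner_smul_left, hη0, hcombu η w 1 hη0 hη1 i]
    rw [real_inner_self_eq_norm_sq] at h1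
    rw [hε, h1]
    simp only [mul_sub, mul_one, Finset.sum_sub_distrib, hη1]
    rw [Finset.sum_div]
    have : ∀ i, η i * ((∑ j, Λ i j * η j) / 2) = η i * (∑ j, Λ i j * η j) / 2 := by
      intro i; ring
    simp only [this]
    ring
  -- unfold everything
  obtain ⟨k, hk⟩ : ∃ k : ℝ, 16 * k = 2 * ((Λ 0 1 * Λ 2 3) * (Λ 0 2 * Λ 1 3)
      + (Λ 0 2 * Λ 1 3) * (Λ 0 3 * Λ 1 2) + (Λ 0 3 * Λ 1 2) * (Λ 0 1 * Λ 2 3))
      - (Λ 0 1 * Λ 2 3) ^ 2 - (Λ 0 2 * Λ 1 3) ^ 2 - (Λ 0 3 * Λ 1 2) ^ 2 :=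
    ⟨(2 * ((Λ 0 1 * Λ 2 3) * (Λ 0 2 * Λ 1 3)
      + (Λ 0 2 * Λ 1 3) * (Λ 0 3 * Λ 1 2) + (Λ 0 3 * Λ 1 2) * (Λ 0 1 * Λ 2 3))
      - (Λ 0 1 * Λ 2 3) ^ 2 - (Λ 0 2 * Λ 1 3) ^ 2 - (Λ 0 3 * Λ 1 2) ^ 2) / 16, by ring⟩
  have N3 : n 3 * (Λ 0 1 * Λ 0 2 * Λ 1 2 + 4 * k * β 3 ^ 2) = 16 * k * β 3 ^ 2 := by
    obtain ⟨ξ, h1, h2, h3⟩ := hξ 3
    have r0 := h1 0 (by decide)
    have r1 := h1 1 (by decide)
    have r2 := h1 2 (by decide)
    simp only [Fin.sum_univ_four, hΛ0, zero_mul, zero_add, add_zero] at r0 r1 r2 h2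
    rw [hΛs 1 0] at r1
    rw [hΛs 2 0, hΛs 2 1] at r2
    rw [hΛs 3 0, hΛs 3 1, hΛs 3 2] at h2
    exact lemN (Λ 0 1) (Λ 0 2) (Λ 0 3) (Λ 1 2) (Λ 1 3) (Λ 2 3) k (β 3) (n 3)
      (ξ 0) (ξ 1) (ξ 2) (ξ 3) hk (by linarith) (by linarith) (by linarith) h2 h3
  have N2 : n 2 * (Λ 0 1 * Λ 0 3 * Λ 1 3 + 4 * k * β 2 ^ 2) = 16 * k * β 2 ^ 2 := by
    obtain ⟨ξ, h1, h2, h3⟩ := hξ 2
    have r0 := h1 0 (by decide)
    have r1 := h1 1 (by decide)
    have r2 := h1 3 (by decide)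
    simp only [Fin.sum_univ_four, hΛ0, zero_mul, zero_add, add_zero] at r0 r1 r2 h2
    rw [hΛs 1 0] at r1
    rw [hΛs 3 0, hΛs 3 1, hΛs 3 2] at r2
    rw [hΛs 2 0, hΛs 2 1] at h2
    exact lemN (Λ 0 1) (Λ 0 3) (Λ 0 2) (Λ 1 3) (Λ 1 2) (Λ 2 3) k (β 2) (n 2)
      (ξ 0) (ξ 1) (ξ 3) (ξ 2) (by rw [hk]; ring) (by linarith) (by linarith) (by linarith)
      (by linarith) h3
  have N1 : n 1 * (Λ 0 2 * Λ 0 3 * Λ 2 3 + 4 * k * β 1 ^ 2) = 16 * k * β 1 ^ 2 := by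
    obtain ⟨ξ, h1, h2, h3⟩ := hξ 1
    have r0 := h1 0 (by decide)
    have r1 := h1 2 (by decide)
    have r2 := h1 3 (by decide)
    simp only [Fin.sum_univ_four, hΛ0, zero_mul, zero_add, add_zero] at r0 r1 r2 h2
    rw [hΛs 2 0, hΛs 2 1] at r1
    rw [hΛs 3 0, hΛs 3 1, hΛs 3 2] at r2
    rw [hΛs 1 0] at h2
    exact lemN (Λ 0 2) (Λ 0 3) (Λ 0 1) (Λ 2 3) (Λ 1 2) (Λ 1 3) k (β 1) (n 1)
      (ξ 0) (ξ 2) (ξ 3) (ξ 1) (by rw [hk]; ring) (by linarith) (by linarith) (by linarith)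
      (by linarith) h3
  have N0 : n 0 * (Λ 1 2 * Λ 1 3 * Λ 2 3 + 4 * k * β 0 ^ 2) = 16 * k * β 0 ^ 2 := by
    obtain ⟨ξ, h1, h2, h3⟩ := hξ 0
    have r0 := h1 1 (by decide)
    have r1 := h1 2 (by decide)
    have r2 := h1 3 (by decide)
    simp only [Fin.sum_univ_four, hΛ0, zero_mul, zero_add, add_zero] at r0 r1 r2 h2
    rw [hΛs 1 0] at r0
    rw [hΛs 2 0, hΛs 2 1] at r1
    rw [hΛs 3 0, hΛs 3 1, hΛs 3 2] at r2
    exact lemN (Λ 1 2) (Λ 1 3) (Λ 0 1) (Λ 2 3) (Λ 0 2) (Λ 0 3) k (β 0) (n 0)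
      (ξ 1) (ξ 2) (ξ 3) (ξ 0) (by rw [hk]; ring) (by linarith) (by linarith) (by linarith)
      (by linarith) h3
  have l0 := hL 0
  have l1 := hL 1
  have l2 := hL 2
  have l3 := hL 3
  simp only [Fin.sum_univ_four, hΛ0, zero_mul, zero_add, add_zero] at l0 l1 l2 l3 hEw
  rw [hΛs 1 0] at l1
  rw [hΛs 2 0, hΛs 2 1] at l2
  rw [hΛs 3 0, hΛs 3 1, hΛs 3 2] at l3
  rw [hΛs 1 0, hΛs 2 0, hΛs 2 1, hΛs 3 0, hΛs 3 1, hΛs 3 2] at hEw
  rw [Fin.sum_univ_four] at hβ1 hη1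
  exact algebra (Λ 0 1) (Λ 0 2) (Λ 0 3) (Λ 1 2) (Λ 1 3) (Λ 2 3) k (β 0) (β 1) (β 2) (β 3)
    (n 0) (n 1) (n 2) (n 3) (η 0) (η 1) (η 2) (η 3) ε
    (hΛpos 0 1 (by decide)) (hΛpos 0 2 (by decide)) (hΛpos 0 3 (by decide))
    (hΛpos 1 2 (by decide)) (hΛpos 1 3 (by decide)) (hΛpos 2 3 (by decide)) hk
    (hβne 0) (hβne 1) (hβne 2) (hβne 3) hβ1 (by linarith) (by linarith) (by linarith)
    (by linarith) (hnpos 0) (hnpos 1) (hnpos 2) (hnpos 3) (hn4 3)
    N0 N1 N2 N3 (hEi 0) (hEi 1) (hEi 2) (hEi 3) hη1 (by rw [hEw]; ring)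

/-- Three distinct unit spheres have at most two common points. -/
theorem nine (c p : Fin 3 → E3) (hc : Function.Injective c) (hp : Function.Injective p)
    (h : ∀ i j, dist (p i) (c j) = 1) : False := by
  have h1 : AffineIndependent ℝ p := by
    have hcos : EuclideanGeometry.Cospherical (Set.range p) :=
      ⟨c 0, 1, by rintro x ⟨i, rfl⟩; exact h i 0⟩
    exact hcos.affineIndependent (le_refl _) hp
  have h2 : AffineIndependent ℝ c := by
    have hcos : EuclideanGeometry.Cospherical (Set.range c) :=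
      ⟨p 0, 1, by rintro x ⟨i, rfl⟩; rw [dist_comm]; exact h 0 i⟩
    exact hcos.affineIndependent (le_refl _) hc
  have f1 : Module.finrank ℝ (vectorSpan ℝ (Set.range p)) = 2 :=
    h1.finrank_vectorSpan (by simp)
  have f2 : Module.finrank ℝ (vectorSpan ℝ (Set.range c)) = 2 :=
    h2.finrank_vectorSpan (by simp)
  have hort : vectorSpan ℝ (Set.range p) ⟂ vectorSpan ℝ (Set.range c) := by
    rw [vectorSpan_def, vectorSpan_def, Submodule.isOrtho_span]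
    rintro _ ⟨_, ⟨k, rfl⟩, _, ⟨l, rfl⟩, rfl⟩ _ ⟨_, ⟨i, rfl⟩, _, ⟨j, rfl⟩, rfl⟩
    simp only [vsub_eq_sub]
    have e : ∀ a b : E3, ‖a - b‖ ^ 2 = ‖a‖ ^ 2 - 2 * ⟪a, b⟫ + ‖b‖ ^ 2 := norm_sub_sq_real
    have d1 := e (p k) (c i)
    have d2 := e (p k) (c j)
    have d3 := e (p l) (c i)
    have d4 := e (p l) (c j)
    rw [← dist_eq_norm, h] at d1 d2 d3 d4
    rw [inner_sub_left, inner_sub_right, inner_sub_right]
    linarith
  have hle : vectorSpan ℝ (Set.range c) ≤ (vectorSpan ℝ (Set.range p))ᗮ := hort.symm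
  have f3 := Submodule.finrank_mono hle
  have f4 := Submodule.finrank_add_finrank_orthogonal (vectorSpan ℝ (Set.range p))
  rw [finrank_euclideanSpace_fin] at f4
  omega

/-- Five distinct unit spheres in space, every four of which meet, have a common point. -/
theorem five (c : Fin 5 → E3)
    (h : ∀ i, ∃ x : E3, ∀ j, j ≠ i → dist x (c j) = 1) : ∃ x : E3, ∀ j, dist x (c j) = 1 := by
  by_contra hcon
  push Not at hcon
  choose x hx using h
  have hx' : ∀ i, dist (x i) (c i) ≠ 1 := by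
    intro i h1
    obtain ⟨j, hj⟩ := hcon (x i)
    by_cases hji : j = i
    · subst hji; exact hj h1
    · exact hj (hx i j hji)
  refine core (fun i => c i.castSucc - x (Fin.last 4)) (fun i => x i.castSucc - x (Fin.last 4))
    (c (Fin.last 4) - x (Fin.last 4)) ?_ ?_ ?_ ?_ ?_
  · intro i
    rw [← dist_eq_norm, dist_comm]
    exact hx _ _ (Fin.castSucc_lt_last i).ne
  · intro i j hij
    simp only [sub_sub_sub_cancel_right]
    rw [← dist_eq_norm]
    exact hx _ _ (fun h => hij (Fin.castSucc_injective _ h).symm)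
  · intro i
    simp only [sub_sub_sub_cancel_right]
    rw [← dist_eq_norm]
    exact hx' _
  · intro i
    simp only [sub_sub_sub_cancel_right]
    rw [← dist_eq_norm]
    exact hx _ _ (Fin.castSucc_lt_last i).ne'
  · rw [← dist_eq_norm, dist_comm]
    exact hx' _

end Pool.Agent.N227.Maehara
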